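import Pool.Agent.Results.MP_e734ed_nt.SparseExceptions
import Pool.Agent.V1172.PW.Eng
import Pool.Agent.V1172.PW.Eng2

/-!
# The weak form of Hall's conjecture in shrinking residue classes

Let `p` be a prime, `σ > 0` and `0 ≤ δ ≤ 1/2`. For all `p`-adic integers `α` outside a set of Hausdorff dimension at most
`(1/3 - δ/6) / σ`, for every `C` and all large `T` the inequality `|y² - x³| > C |x| ^ (1/2 - δ)` holds for ALL integers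
`x`, `y` with `y² ≠ x³`, `|x| ≤ T` and `|x - α|_p ≤ T ^ (-σ)`, that is, `x` in the residue class of `α` modulo the least
`p ^ f ≥ T ^ σ`. The same is true for `|y| ≤ T`, `|y - α|_p ≤ T ^ (-σ)` with `2/9 - δ/9` instead of `1/3 - δ/6`, and for
pairs `(α, β)` and `|x - α|_p, |y - β|_p ≤ T ^ (-σ)`, `|x| ≤ T ^ 2`, with dimension at most `(2/3 - δ/3) / σ`.
-/

set_option autoImplicit false

namespace Pool.Agent.Results.MP_e734ed_nt.ResidueClasses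

/-- the exceptional pairs -/
def Exc (C δ : ℝ) : Set (ℤ × ℤ) :=
  {e : ℤ × ℤ | e.2 ^ 2 ≠ e.1 ^ 3 ∧ |(e.2 : ℝ) ^ 2 - (e.1 : ℝ) ^ 3| ≤ C * |(e.1 : ℝ)| ^ (1 / 2 - δ)}

lemma count_x (C δ : ℝ) (h0 : 0 ≤ δ) (h1 : δ ≤ 1 / 2) (ε : ℝ) (hε : 0 < ε) : ∃ K : ℝ, ∀ X : ℝ, 1 ≤ X →
    {e | e ∈ Exc C δ ∧ |((e.1 : ℤ) : ℝ)| ≤ X}.Finite ∧
      ({e | e ∈ Exc C δ ∧ |((e.1 : ℤ) : ℝ)| ≤ X}.ncard : ℝ) ≤ K * X ^ (1 / 3 - δ / 6 + ε) := by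
  obtain ⟨K, hK⟩ := SparseExceptions.result C ε hε
  refine ⟨K, fun X hX => ?_⟩
  have e : {e | e ∈ Exc C δ ∧ |((e.1 : ℤ) : ℝ)| ≤ X} = {e : ℤ × ℤ | |(e.1 : ℝ)| ≤ X ∧ e.2 ^ 2 ≠ e.1 ^ 3 ∧
      |(e.2 : ℝ) ^ 2 - (e.1 : ℝ) ^ 3| ≤ C * |(e.1 : ℝ)| ^ (1 / 2 - δ)} := by
    ext e
    constructor
    · rintro ⟨⟨h2, h3⟩, h4⟩
      exact ⟨h4, h2, h3⟩
    · rintro ⟨h4, h2, h3⟩
      exact ⟨⟨h2, h3⟩, h4⟩
  rw [e]
  exact hK δ h0 h1 X hX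

/-- the first coordinate of an exceptional pair is bounded in terms of the second -/
lemma x_le (C δ : ℝ) (h0 : 0 ≤ δ) (h1 : δ ≤ 1 / 2) (e : ℤ × ℤ) (he : e ∈ Exc C δ) (X : ℝ) (hX : 1 ≤ X)
    (hy : |((e.2 : ℤ) : ℝ)| ≤ X) : |((e.1 : ℤ) : ℝ)| ≤ (2 + 2 * |C|) * X ^ ((2 : ℝ) / 3) := by
  obtain ⟨-, h3⟩ := he
  set t : ℝ := |((e.1 : ℤ) : ℝ)| with ht
  have hC := abs_nonneg C
  have hX0 : 0 < X := by linarith
  have hP1 : 1 ≤ X ^ ((2 : ℝ) / 3) := Real.one_le_rpow hX (by norm_num)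
  by_contra hcon
  push Not at hcon
  have ht1 : 1 < t := by
    have : (1 : ℝ) ≤ (2 + 2 * |C|) * X ^ ((2 : ℝ) / 3) := by nlinarith
    linarith
  have h4 : t ^ (1 / 2 - δ) ≤ t := by
    calc t ^ (1 / 2 - δ) ≤ t ^ (1 : ℝ) := Real.rpow_le_rpow_of_exponent_le ht1.le (by linarith)
      _ = t := Real.rpow_one t
  have h5 : C * t ^ (1 / 2 - δ) ≤ |C| * t :=
    (mul_le_mul_of_nonneg_right (le_abs_self C) (by positivity)).trans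
      (mul_le_mul_of_nonneg_left h4 hC)
  have h6 : t ^ 3 ≤ ((e.2 : ℤ) : ℝ) ^ 2 + |((e.2 : ℤ) : ℝ) ^ 2 - ((e.1 : ℤ) : ℝ) ^ 3| := by
    have h7 : t ^ 3 = |((e.1 : ℤ) : ℝ) ^ 3| := by rw [ht, abs_pow]
    rw [h7]
    have h8 := abs_sub_abs_le_abs_sub (((e.1 : ℤ) : ℝ) ^ 3) (((e.2 : ℤ) : ℝ) ^ 2)
    rw [abs_sub_comm, abs_of_nonneg (sq_nonneg ((e.2 : ℤ) : ℝ))] at h8
    linarith
  have h9 : ((e.2 : ℤ) : ℝ) ^ 2 ≤ X ^ 2 := by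
    rw [← sq_abs]
    exact pow_le_pow_left₀ (abs_nonneg _) hy 2
  have h10 : t ^ 3 ≤ X ^ 2 + |C| * t := by linarith
  set D : ℝ := 2 + 2 * |C| with hD
  have hD2 : 2 ≤ D := by rw [hD]; linarith
  have h11 : (D * X ^ ((2 : ℝ) / 3)) ^ 3 < t ^ 3 := pow_lt_pow_left₀ hcon (by positivity) (by norm_num)
  have h12 : (X ^ ((2 : ℝ) / 3)) ^ 3 = X ^ 2 := by
    rw [← Real.rpow_natCast, ← Real.rpow_mul hX0.le]
    norm_num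
  rw [mul_pow, h12] at h11
  have h13 : D ≤ t := by nlinarith
  have h14 : D ^ 2 * t ≤ t ^ 3 := by
    have : D ^ 2 ≤ t ^ 2 := pow_le_pow_left₀ (by linarith) h13 2
    nlinarith
  have h15 : 2 * |C| ≤ D ^ 2 := by nlinarith
  have h16 : 2 * (|C| * t) ≤ D ^ 2 * t := by nlinarith
  have h17 : 8 ≤ D ^ 3 := by
    calc (8 : ℝ) = 2 ^ 3 := by norm_num
      _ ≤ D ^ 3 := pow_le_pow_left₀ (by norm_num) hD2 3
  have hX2 : 0 < X ^ 2 := by positivity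
  nlinarith

lemma count_y (C δ : ℝ) (h0 : 0 ≤ δ) (h1 : δ ≤ 1 / 2) (ε : ℝ) (hε : 0 < ε) : ∃ K : ℝ, ∀ X : ℝ, 1 ≤ X →
    {e | e ∈ Exc C δ ∧ |((e.2 : ℤ) : ℝ)| ≤ X}.Finite ∧
      ({e | e ∈ Exc C δ ∧ |((e.2 : ℤ) : ℝ)| ≤ X}.ncard : ℝ) ≤ K * X ^ (2 / 9 - δ / 9 + ε) := by
  obtain ⟨K, hK⟩ := count_x C δ h0 h1 ε hε
  set D : ℝ := 2 + 2 * |C| with hD
  have hD2 : 2 ≤ D := by
    have := abs_nonneg C
    rw [hD]
    linarith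
  refine ⟨|K| * D ^ (1 / 3 - δ / 6 + ε), fun X hX => ?_⟩
  have hX0 : 0 < X := by linarith
  have hP1 : 1 ≤ X ^ ((2 : ℝ) / 3) := Real.one_le_rpow hX (by norm_num)
  have hY : 1 ≤ D * X ^ ((2 : ℝ) / 3) := by nlinarith
  obtain ⟨hfin, hcard⟩ := hK _ hY
  have hsub : {e | e ∈ Exc C δ ∧ |((e.2 : ℤ) : ℝ)| ≤ X} ⊆
      {e | e ∈ Exc C δ ∧ |((e.1 : ℤ) : ℝ)| ≤ D * X ^ ((2 : ℝ) / 3)} := by
    rintro e ⟨he, hy⟩
    exact ⟨he, x_le C δ h0 h1 e he X hX hy⟩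
  refine ⟨hfin.subset hsub, ?_⟩
  have h2 : ({e | e ∈ Exc C δ ∧ |((e.2 : ℤ) : ℝ)| ≤ X}.ncard : ℝ) ≤
      ({e | e ∈ Exc C δ ∧ |((e.1 : ℤ) : ℝ)| ≤ D * X ^ ((2 : ℝ) / 3)}.ncard : ℝ) := by
    exact_mod_cast Set.ncard_le_ncard hsub hfin
  have h3 : (D * X ^ ((2 : ℝ) / 3)) ^ (1 / 3 - δ / 6 + ε) ≤ D ^ (1 / 3 - δ / 6 + ε) * X ^ (2 / 9 - δ / 9 + ε) := by
    rw [Real.mul_rpow (by linarith) (by positivity), ← Real.rpow_mul hX0.le]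
    apply mul_le_mul_of_nonneg_left _ (by positivity)
    apply Real.rpow_le_rpow_of_exponent_le hX
    linarith
  calc ({e | e ∈ Exc C δ ∧ |((e.2 : ℤ) : ℝ)| ≤ X}.ncard : ℝ)
      ≤ K * (D * X ^ ((2 : ℝ) / 3)) ^ (1 / 3 - δ / 6 + ε) := h2.trans hcard
    _ ≤ |K| * (D ^ (1 / 3 - δ / 6 + ε) * X ^ (2 / 9 - δ / 9 + ε)) :=
        (mul_le_mul_of_nonneg_right (le_abs_self K) (by positivity)).trans
          (mul_le_mul_of_nonneg_left h3 (abs_nonneg K))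
    _ = |K| * D ^ (1 / 3 - δ / 6 + ε) * X ^ (2 / 9 - δ / 9 + ε) := by ring

/-- pairs, the size being the square root of the first coordinate -/
lemma count_sq (C δ : ℝ) (h0 : 0 ≤ δ) (h1 : δ ≤ 1 / 2) (ε : ℝ) (hε : 0 < ε) : ∃ K : ℝ, ∀ X : ℝ, 1 ≤ X →
    {e | e ∈ Exc C δ ∧ √|((e.1 : ℤ) : ℝ)| ≤ X}.Finite ∧
      ({e | e ∈ Exc C δ ∧ √|((e.1 : ℤ) : ℝ)| ≤ X}.ncard : ℝ) ≤ K * X ^ (2 / 3 - δ / 3 + ε) := by
  obtain ⟨K, hK⟩ := count_x C δ h0 h1 (ε / 2) (by linarith)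
  refine ⟨K, fun X hX => ?_⟩
  have hX0 : 0 < X := by linarith
  have e : {e | e ∈ Exc C δ ∧ √|((e.1 : ℤ) : ℝ)| ≤ X} = {e | e ∈ Exc C δ ∧ |((e.1 : ℤ) : ℝ)| ≤ X ^ 2} := by
    ext e
    exact and_congr_right fun _ => Real.sqrt_le_left hX0.le
  rw [e]
  obtain ⟨g1, g2⟩ := hK (X ^ 2) (one_le_pow₀ hX)
  refine ⟨g1, g2.trans (le_of_eq ?_)⟩
  rw [← Real.rpow_natCast X 2, ← Real.rpow_mul hX0.le]
  congr 2
  push_cast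
  ring

/-- **Theorem.** Let `p` be a prime, `σ > 0` and `0 ≤ δ ≤ 1/2`.
(1) There is a set `E` of `p`-adic integers, of Hausdorff dimension at most `(1/3 - δ/6) / σ`, such that for each `α ∈ ℤ_p`
outside `E`, every `C` and all large `T`, `|y² - x³| > C |x| ^ (1/2 - δ)` for all integers `x`, `y` with `y² ≠ x³`,
`|x| ≤ T` and `|x - α|_p ≤ T ^ (-σ)`.
(2) There is a set `E` of Hausdorff dimension at most `(2/9 - δ/9) / σ` such that for each `α ∈ ℤ_p` outside `E`, every `C`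
and all large `T`, the same inequality holds for all integers `x`, `y` with `y² ≠ x³`, `|y| ≤ T` and
`|y - α|_p ≤ T ^ (-σ)`.
(3) There is a set `E` of pairs of `p`-adic integers, of Hausdorff dimension at most `(2/3 - δ/3) / σ`, such that for each
`(α, β) ∈ ℤ_p × ℤ_p` outside `E`, every `C` and all large `T`, the same inequality holds for all integers `x`, `y` with
`y² ≠ x³`, `|x| ≤ T ^ 2`, `|x - α|_p ≤ T ^ (-σ)` and `|y - β|_p ≤ T ^ (-σ)`. -/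
theorem result (p : ℕ) [Fact p.Prime] (σ δ : ℝ) (hσ : 0 < σ) (h0 : 0 ≤ δ) (h1 : δ ≤ 1 / 2) :
    (∃ E : Set ℤ_[p], dimH E ≤ ENNReal.ofReal ((1 / 3 - δ / 6) / σ) ∧ ∀ α : ℤ_[p], α ∉ E → ∀ C : ℝ,
      ∃ T₀ : ℝ, ∀ T : ℝ, T₀ ≤ T → ∀ x y : ℤ, y ^ 2 ≠ x ^ 3 → |(x : ℝ)| ≤ T → ‖(x : ℤ_[p]) - α‖ ≤ T ^ (-σ) →
        C * |(x : ℝ)| ^ (1 / 2 - δ) < |(y : ℝ) ^ 2 - (x : ℝ) ^ 3|) ∧
    (∃ E : Set ℤ_[p], dimH E ≤ ENNReal.ofReal ((2 / 9 - δ / 9) / σ) ∧ ∀ α : ℤ_[p], α ∉ E → ∀ C : ℝ,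
      ∃ T₀ : ℝ, ∀ T : ℝ, T₀ ≤ T → ∀ x y : ℤ, y ^ 2 ≠ x ^ 3 → |(y : ℝ)| ≤ T → ‖(y : ℤ_[p]) - α‖ ≤ T ^ (-σ) →
        C * |(x : ℝ)| ^ (1 / 2 - δ) < |(y : ℝ) ^ 2 - (x : ℝ) ^ 3|) ∧
    (∃ E : Set (ℤ_[p] × ℤ_[p]), dimH E ≤ ENNReal.ofReal ((2 / 3 - δ / 3) / σ) ∧ ∀ α β : ℤ_[p], (α, β) ∉ E → ∀ C : ℝ,
      ∃ T₀ : ℝ, ∀ T : ℝ, T₀ ≤ T → ∀ x y : ℤ, y ^ 2 ≠ x ^ 3 → |(x : ℝ)| ≤ T ^ 2 → ‖(x : ℤ_[p]) - α‖ ≤ T ^ (-σ) →
        ‖(y : ℤ_[p]) - β‖ ≤ T ^ (-σ) → C * |(x : ℝ)| ^ (1 / 2 - δ) < |(y : ℝ) ^ 2 - (x : ℝ) ^ 3|) := by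
  have up : ∀ C : ℝ, ∃ k : ℕ, ∀ x y : ℤ, y ^ 2 ≠ x ^ 3 →
      |(y : ℝ) ^ 2 - (x : ℝ) ^ 3| ≤ C * |(x : ℝ)| ^ (1 / 2 - δ) → (x, y) ∈ Exc (k : ℝ) δ := by
    intro C
    obtain ⟨k, hk⟩ := exists_nat_ge C
    exact ⟨k, fun x y hxy h => ⟨hxy, h.trans (mul_le_mul_of_nonneg_right hk (by positivity))⟩⟩
  refine ⟨?_, ?_, ?_⟩
  · obtain ⟨E, h2, h3⟩ := Pool.Agent.V1172.PW.objs p (P := ℤ × ℤ) (fun e => e.1) (fun k : ℕ => Exc (k : ℝ) δ)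
      (s := 1 / 3 - δ / 6) (by linarith) (fun k ε hε => count_x (k : ℝ) δ h0 h1 ε hε) hσ
    refine ⟨E, h2, fun α hα C => ?_⟩
    obtain ⟨k, hk⟩ := up C
    obtain ⟨T₀, hT⟩ := h3 α hα k
    refine ⟨T₀, fun T hT1 x y hxy hx hw => ?_⟩
    by_contra hcon
    push Not at hcon
    exact hT T hT1 (x, y) hx hw (hk x y hxy hcon)
  · obtain ⟨E, h2, h3⟩ := Pool.Agent.V1172.PW.objs p (P := ℤ × ℤ) (fun e => e.2) (fun k : ℕ => Exc (k : ℝ) δ)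
      (s := 2 / 9 - δ / 9) (by linarith) (fun k ε hε => count_y (k : ℝ) δ h0 h1 ε hε) hσ
    refine ⟨E, h2, fun α hα C => ?_⟩
    obtain ⟨k, hk⟩ := up C
    obtain ⟨T₀, hT⟩ := h3 α hα k
    refine ⟨T₀, fun T hT1 x y hxy hx hw => ?_⟩
    by_contra hcon
    push Not at hcon
    exact hT T hT1 (x, y) hx hw (hk x y hxy hcon)
  · classical
    set φ : ℤ × ℤ → ℤ_[p] × ℤ_[p] := fun e => ((e.1 : ℤ_[p]), (e.2 : ℤ_[p])) with hφ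
    set ht : ℤ × ℤ → ℝ := fun e => max 1 (√|((e.1 : ℤ) : ℝ)|) with hht
    obtain ⟨E, hE1, hE2⟩ := Pool.Agent.H107.ME.dim_family φ ht (fun t => le_max_left _ _)
      (s := 2 / 3 - δ / 3) (by linarith) hσ (fun k : ℕ => Exc (k : ℝ) δ) (fun k ε hε => by
        obtain ⟨K, hK⟩ := count_sq (k : ℝ) δ h0 h1 ε hε
        refine ⟨K, fun X hX => ?_⟩
        obtain ⟨g1, g2⟩ := hK X hX
        have hsub : {t | t ∈ Exc (k : ℝ) δ ∧ ht t ≤ X} ⊆ {e | e ∈ Exc (k : ℝ) δ ∧ √|((e.1 : ℤ) : ℝ)| ≤ X} := by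
          rintro t ⟨a, b⟩
          exact ⟨a, (le_max_right _ _).trans b⟩
        refine ⟨g1.subset hsub, le_trans ?_ g2⟩
        exact_mod_cast Set.ncard_le_ncard hsub g1)
    refine ⟨E ∪ Set.range φ, ?_, fun α β hα C => ?_⟩
    · rw [dimH_union, (Set.countable_range φ).dimH_zero]
      exact max_le hE1 bot_le
    rw [Set.mem_union, not_or] at hα
    obtain ⟨k, hk⟩ := up C
    have hfin := hE2 (α, β) hα.1 k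
    have hne : ∀ t ∈ {t | t ∈ Exc (k : ℝ) δ ∧ dist (φ t) (α, β) ≤ (ht t) ^ (-σ)},
        ∀ᶠ T : ℝ in Filter.atTop, T ^ (-σ) < dist (φ t) (α, β) := by
      intro t _
      have h1 : 0 < dist (φ t) (α, β) := dist_pos.2 fun h2 => hα.2 ⟨t, h2⟩
      exact (tendsto_rpow_neg_atTop hσ).eventually (gt_mem_nhds h1)
    obtain ⟨T₀, hT₀⟩ := Filter.eventually_atTop.1 ((Filter.eventually_all_finite hfin).2 hne)
    refine ⟨max T₀ 1, fun T hT x y hxy hx hwx hwy => ?_⟩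
    by_contra hcon
    push Not at hcon
    have hT1 : 1 ≤ T := (le_max_right _ _).trans hT
    have hdist : dist (φ (x, y)) (α, β) ≤ T ^ (-σ) := by
      rw [Prod.dist_eq]
      refine max_le ?_ ?_
      · rw [dist_eq_norm]
        exact hwx
      · rw [dist_eq_norm]
        exact hwy
    have hle : ht (x, y) ≤ T := by
      refine max_le hT1 ?_
      rw [Real.sqrt_le_left (by linarith)]
      exact hx
    have hmem : (x, y) ∈ {t | t ∈ Exc (k : ℝ) δ ∧ dist (φ t) (α, β) ≤ (ht t) ^ (-σ)} :=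
      ⟨hk x y hxy hcon, hdist.trans
        (Real.rpow_le_rpow_of_nonpos (lt_of_lt_of_le one_pos (le_max_left _ _)) hle (by linarith))⟩
    have h3 := hT₀ T ((le_max_left _ _).trans hT) (x, y) hmem
    linarith

end Pool.Agent.Results.MP_e734ed_nt.ResidueClasses
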