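import Pool.Agent.Results.MP_e734ed_nt.WindowsWithoutExceptions
import Pool.Agent.V11001.KM.Near

/-!
# The weak form of Hall's conjecture near the powers of almost every real number

Let `ν n / log n → ∞`, for example `ν n = n`. For almost every real `z > 1`, `0 ≤ δ ≤ 1/2` and `θ < 2/3 + δ/6` (and each
`C`) the inequality `|y² - x³| > C |x| ^ (1/2 - δ)` holds for ALL integers `x`, `y` with `y² ≠ x³` and `|x|` sufficiently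
large and `||x| - z ^ (ν n)| ≤ z ^ (θ ν n)` for some `n`; similarly for `|y|` with `θ < 7/9 + δ/9`.
-/

set_option autoImplicit false

namespace Pool.Agent.Results.MP_e734ed_nt.SolutionsNearPowers

open Pool.Agent.V11001.KM
open WindowsWithoutExceptions (Exc count_x count_y)

/-- **Theorem.** Let `ν n / log n → ∞`, let `B` be a countable set of real numbers and `0 ≤ δ ≤ 1/2`.
(1) For `θ < 1` there is a set `E` of Hausdorff dimension at most `(1/3 - δ/6) / (1 - θ)` such that for each `z > 1`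
outside `E`, each positive `β` in `B` and each `C` there is `H₀` such that `|y² - x³| > C |x| ^ (1/2 - δ)` for all
integers `x`, `y` with `y² ≠ x³`, `|x| ≥ H₀` and `||x| - β z ^ (ν n)| ≤ z ^ (θ ν n)` for some `n`.
(2) For almost every real `z > 1` this holds for all `θ < 2/3 + δ/6`.
(3), (4) The same for `||y| - β z ^ (ν n)| ≤ z ^ (θ ν n)`, with the dimension `(2/9 - δ/9) / (1 - θ)` and with
`θ < 7/9 + δ/9`. -/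
theorem result : ∀ ν : ℕ → ℝ, Fast ν → ∀ B : Set ℝ, B.Countable → ∀ δ : ℝ, 0 ≤ δ → δ ≤ 1 / 2 →
    (∀ θ : ℝ, θ < 1 → ∃ E : Set ℝ, dimH E ≤ ENNReal.ofReal ((1 / 3 - δ / 6) / (1 - θ)) ∧
      ∀ z : ℝ, 1 < z → z ∉ E → ∀ β ∈ B, 0 < β → ∀ C : ℝ, ∃ H₀ : ℝ, ∀ x y : ℤ, y ^ 2 ≠ x ^ 3 →
        H₀ ≤ |(x : ℝ)| → Near ν θ β z |(x : ℝ)| → C * |(x : ℝ)| ^ (1 / 2 - δ) < |(y : ℝ) ^ 2 - (x : ℝ) ^ 3|) ∧
    (∀ᵐ z : ℝ, 1 < z → ∀ θ : ℝ, θ < 2 / 3 + δ / 6 → ∀ β ∈ B, 0 < β → ∀ C : ℝ, ∃ H₀ : ℝ, ∀ x y : ℤ,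
      y ^ 2 ≠ x ^ 3 → H₀ ≤ |(x : ℝ)| → Near ν θ β z |(x : ℝ)| →
        C * |(x : ℝ)| ^ (1 / 2 - δ) < |(y : ℝ) ^ 2 - (x : ℝ) ^ 3|) ∧
    (∀ θ : ℝ, θ < 1 → ∃ E : Set ℝ, dimH E ≤ ENNReal.ofReal ((2 / 9 - δ / 9) / (1 - θ)) ∧
      ∀ z : ℝ, 1 < z → z ∉ E → ∀ β ∈ B, 0 < β → ∀ C : ℝ, ∃ H₀ : ℝ, ∀ x y : ℤ, y ^ 2 ≠ x ^ 3 →
        H₀ ≤ |(y : ℝ)| → Near ν θ β z |(y : ℝ)| → C * |(x : ℝ)| ^ (1 / 2 - δ) < |(y : ℝ) ^ 2 - (x : ℝ) ^ 3|) ∧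
    (∀ᵐ z : ℝ, 1 < z → ∀ θ : ℝ, θ < 7 / 9 + δ / 9 → ∀ β ∈ B, 0 < β → ∀ C : ℝ, ∃ H₀ : ℝ, ∀ x y : ℤ,
      y ^ 2 ≠ x ^ 3 → H₀ ≤ |(y : ℝ)| → Near ν θ β z |(y : ℝ)| →
        C * |(x : ℝ)| ^ (1 / 2 - δ) < |(y : ℝ) ^ 2 - (x : ℝ) ^ 3|) := by
  intro ν hν B hB δ h0 h1
  have mono : ∀ {C C' : ℝ} {x : ℤ}, C ≤ C' → C * |(x : ℝ)| ^ (1 / 2 - δ) ≤ C' * |(x : ℝ)| ^ (1 / 2 - δ) :=
    fun h => mul_le_mul_of_nonneg_right h (Real.rpow_nonneg (abs_nonneg _) _)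
  have keyx : ∀ {θ β z C : ℝ},
      (∀ k : ℕ, ∃ H₀ : ℝ, ∀ e ∈ Exc (k : ℝ) δ, Near ν θ β z |((e.1 : ℤ) : ℝ)| → |((e.1 : ℤ) : ℝ)| < H₀) →
      ∃ H₀ : ℝ, ∀ x y : ℤ, y ^ 2 ≠ x ^ 3 → H₀ ≤ |(x : ℝ)| → Near ν θ β z |(x : ℝ)| →
        C * |(x : ℝ)| ^ (1 / 2 - δ) < |(y : ℝ) ^ 2 - (x : ℝ) ^ 3| := by
    intro θ β z C h
    obtain ⟨k, hk⟩ := exists_nat_ge C
    obtain ⟨H₀, hH⟩ := h k
    refine ⟨H₀, fun x y hxy h1 h2 => ?_⟩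
    by_contra hcon
    push Not at hcon
    exact absurd (hH (x, y) ⟨hxy, hcon.trans (mono hk)⟩ h2) (not_lt.2 h1)
  have keyy : ∀ {θ β z C : ℝ},
      (∀ k : ℕ, ∃ H₀ : ℝ, ∀ e ∈ Exc (k : ℝ) δ, Near ν θ β z |((e.2 : ℤ) : ℝ)| → |((e.2 : ℤ) : ℝ)| < H₀) →
      ∃ H₀ : ℝ, ∀ x y : ℤ, y ^ 2 ≠ x ^ 3 → H₀ ≤ |(y : ℝ)| → Near ν θ β z |(y : ℝ)| →
        C * |(x : ℝ)| ^ (1 / 2 - δ) < |(y : ℝ) ^ 2 - (x : ℝ) ^ 3| := by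
    intro θ β z C h
    obtain ⟨k, hk⟩ := exists_nat_ge C
    obtain ⟨H₀, hH⟩ := h k
    refine ⟨H₀, fun x y hxy h1 h2 => ?_⟩
    by_contra hcon
    push Not at hcon
    exact absurd (hH (x, y) ⟨hxy, hcon.trans (mono hk)⟩ h2) (not_lt.2 h1)
  refine ⟨fun θ hθ => ?_, ?_, fun θ hθ => ?_, ?_⟩
  · obtain ⟨E, g1, g2⟩ := family_threshold (fun e : ℤ × ℤ => |((e.1 : ℤ) : ℝ)|) hν (s := 1 / 3 - δ / 6)
      (by linarith) hθ B hB (J := ℕ) (fun k => Exc (k : ℝ) δ) (fun k ε hε => count_x k δ h0 h1 ε hε)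
    exact ⟨E, g1, fun x hx hxE β hβ hβ0 C => keyx (g2 x hx hxE β hβ hβ0)⟩
  · filter_upwards [ae_family_threshold (fun e : ℤ × ℤ => |((e.1 : ℤ) : ℝ)|) hν (s := 1 / 3 - δ / 6)
      (by linarith) B hB (J := ℕ) (fun k => Exc (k : ℝ) δ) (fun k ε hε => count_x k δ h0 h1 ε hε)]
      with x hx hx1 θ hθ β hβ hβ0 C
    exact keyx (hx hx1 θ (by linarith) β hβ hβ0)
  · obtain ⟨E, g1, g2⟩ := family_threshold (fun e : ℤ × ℤ => |((e.2 : ℤ) : ℝ)|) hν (s := 2 / 9 - δ / 9)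
      (by linarith) hθ B hB (J := ℕ) (fun k => Exc (k : ℝ) δ) (fun k ε hε => count_y k δ h0 h1 ε hε)
    exact ⟨E, g1, fun x hx hxE β hβ hβ0 C => keyy (g2 x hx hxE β hβ hβ0)⟩
  · filter_upwards [ae_family_threshold (fun e : ℤ × ℤ => |((e.2 : ℤ) : ℝ)|) hν (s := 2 / 9 - δ / 9)
      (by linarith) B hB (J := ℕ) (fun k => Exc (k : ℝ) δ) (fun k ε hε => count_y k δ h0 h1 ε hε)]
      with x hx hx1 θ hθ β hβ hβ0 C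
    exact keyy (hx hx1 θ (by linarith) β hβ hβ0)

end Pool.Agent.Results.MP_e734ed_nt.SolutionsNearPowers
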